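import Mathlib

set_option autoImplicit false

namespace Pool.Agent.Helper22FS.Cor

/-- If `P` holds at `l` and `n^2 l` satisfies `P` for finitely many odd `n` only, then some multiple `l'`
satisfies `P`, and `n^2 l'` does not for every odd `n >= 3`. -/
theorem cor_fin (P : ℝ → Prop) (l : ℝ) (hl : P l)
    (hf : {n : ℕ | Odd n ∧ P ((n : ℝ) ^ 2 * l)}.Finite) :
    ∃ l' : ℝ, P l' ∧ ∀ n : ℕ, Odd n → 3 ≤ n → ¬ P ((n : ℝ) ^ 2 * l') := by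
  have hne : {n : ℕ | Odd n ∧ P ((n : ℝ) ^ 2 * l)}.Nonempty := ⟨1, odd_one, by simpa using hl⟩
  obtain ⟨m, ⟨hm, hPm⟩, hmax⟩ := Set.exists_max_image _ (fun n : ℕ => n) hf hne
  refine ⟨(m : ℝ) ^ 2 * l, hPm, ?_⟩
  intro n hn h3 hP
  have h1 : n * m ∈ {n : ℕ | Odd n ∧ P ((n : ℝ) ^ 2 * l)} := by
    refine ⟨hn.mul hm, ?_⟩
    have : ((n * m : ℕ) : ℝ) ^ 2 * l = (n : ℝ) ^ 2 * ((m : ℝ) ^ 2 * l) := by
      push_cast
      ring
    rw [this]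
    exact hP
  have h2 : n * m ≤ m := hmax _ h1
  have h4 : 0 < m := hm.pos
  nlinarith

/-- If `9^k l` satisfies `P` for finitely many `k` only. -/
theorem cor_nine (P : ℝ → Prop) (l : ℝ) (hl : P l)
    (hf : {k : ℕ | P ((9 : ℝ) ^ k * l)}.Finite) :
    ∃ l' : ℝ, P l' ∧ (∀ n : ℕ, Odd n → 3 ≤ n → n ≤ 2 * 1 + 1 → ¬ P ((n : ℝ) ^ 2 * l')) ∧
      ∀ J : ℕ, ∃ M, J ≤ M ∧ ∀ n : ℕ, Odd n → M < n → n ≤ M + 2 * 1 → ¬ P ((n : ℝ) ^ 2 * l') := by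
  have hne : {k : ℕ | P ((9 : ℝ) ^ k * l)}.Nonempty := ⟨0, by simpa using hl⟩
  obtain ⟨K, hPK, hmax⟩ := Set.exists_max_image _ (fun n : ℕ => n) hf hne
  have key : ∀ j : ℕ, 1 ≤ j → ¬ P ((((3 ^ j : ℕ) : ℝ)) ^ 2 * ((9 : ℝ) ^ K * l)) := by
    intro j hj hP
    have h1 : j + K ∈ {k : ℕ | P ((9 : ℝ) ^ k * l)} := by
      have : (((3 ^ j : ℕ) : ℝ)) ^ 2 * ((9 : ℝ) ^ K * l) = (9 : ℝ) ^ (j + K) * l := by
        push_cast
        rw [← pow_mul, mul_comm j 2, pow_mul, pow_add]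
        norm_num
        ring
      rw [this] at hP
      exact hP
    have h2 : j + K ≤ K := hmax _ h1
    omega
  refine ⟨(9 : ℝ) ^ K * l, hPK, ?_, ?_⟩
  · intro n hn h3 h4
    have : n = 3 ^ 1 := by omega
    rw [this]
    exact key 1 le_rfl
  · intro J
    refine ⟨3 ^ (J + 1) - 1, ?_, ?_⟩
    · have : J + 1 < 3 ^ (J + 1) := Nat.lt_pow_self (by norm_num)
      omega
    · intro n hn h1 h2
      have h3 : Odd (3 ^ (J + 1)) := Odd.pow (by decide)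
      have h5 : n = 3 ^ (J + 1) := by
        obtain ⟨a, ha⟩ := hn
        obtain ⟨b, hb⟩ := h3
        omega
      rw [h5]
      exact key (J + 1) (by omega)

end Pool.Agent.Helper22FS.Cor
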