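import Pool.Agent.Helper64_BEG.Fun2
import Pool.Agent.Helper64_BEP.AllP
import Pool.Agent.Helper22_FS.Cor
import Pool.Agent.Helper70_BE01.Conv

set_option autoImplicit false

namespace Pool.Agent.Helper22FS.Prod

open Pool.Agent Pool.Agent.BEP
open Set Filter Topology MeasureTheory
open scoped InnerProductSpace ENNReal

noncomputable section

/-- Products `(R A) × O`, `R` outside a countable set: `A ⊆ ℝ^d` has a Dirichlet eigenvalue `l` with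
finitely many eigenvalues `n^2 l`, `n` odd. -/
theorem prod_fin (d m : ℕ) (hd : 2 ≤ d) (hm : 1 ≤ m) (A : Set (BE01F.E d)) (O : Set (BE01F.E m))
    (hA : IsOpen A) (hAb : Bornology.IsBounded A) (hO : IsOpen O) (hOb : Bornology.IsBounded O)
    (hne : O.Nonempty) (l : ℝ) (hl : ∃ φ, BE01F.Eig A l φ ∧ ¬ BE01F.AeZero A φ)
    (hf : {n : ℕ | Odd n ∧ ∃ φ, BE01F.Eig A ((n : ℝ) ^ 2 * l) φ ∧ ¬ BE01F.AeZero A φ}.Finite) :
    ∃ C : Set ℝ, C.Countable ∧ ∀ (R a : ℝ) (p : ℕ), 0 < R → R ∉ C → 0 < a → 1 ≤ p →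
      BE01F.SharpRate {x : BE01F.E (d + m) |
        (WithLp.toLp 2 fun i : Fin d => R⁻¹ * x (Fin.castAdd m i)) ∈ A ∧
        (WithLp.toLp 2 fun j : Fin m => x (Fin.natAdd d j)) ∈ O} a ((2 * p : ℕ) : ℝ) := by
  have hAd : BE01.Dom A := by
    obtain ⟨φ, -, h⟩ := hl
    exact BEG.Fun.dom_of hA hAb h
  have hEv : ∀ r : ℝ, (∃ φ, BE01F.Eig A r φ ∧ ¬ BE01F.AeZero A φ) ↔ r ∈ Sp A ∅ := by
    intro r
    constructor
    · rintro ⟨φ, hE, hφ⟩
      have hmem : MemLp φ 2 (BE01.mu A) := hE.choose_spec.1.1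
      have hφe : hmem.toLp φ =ᵐ[BE01.mu A] φ := hmem.coeFn_toLp
      refine ⟨hmem.toLp φ, ?_, BEG.Fun.ne_zero_of hφe hφ, Helper70BE01Conv.eig_to hE hφe⟩
      rintro g ⟨hg, -⟩
      exact absurd hg (Set.notMem_empty _)
    · rintro ⟨u, -, hu, hE⟩
      exact ⟨fun x => u x, Helper70BE01Conv.eig_of hE, BEG.Fun.not_zero_of hu⟩
  obtain ⟨l', h1, h2⟩ := Cor.cor_fin (fun r => r ∈ Sp A ∅) l ((hEv l).1 hl) (by
    refine hf.subset ?_
    rintro n ⟨hn, hS⟩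
    exact ⟨hn, (hEv _).2 hS⟩)
  obtain ⟨C, hC, h⟩ := AllP.cyr d m A O ∅ hd hm hAd ⟨hO, hOb, hne⟩ (by
    rintro g ⟨hg, -⟩
    exact absurd hg (Set.notMem_empty _))
    (fun p _ => ⟨l', h1, fun n hn h3 _ => h2 n hn h3, fun J => ⟨J + 3, by omega,
      fun n hn h3 _ => h2 n hn (by omega)⟩⟩)
  refine ⟨C, hC, fun R a p hR hRC ha hp => ?_⟩
  have h3 := Helper70BE01Conv.sharp_of (h R a p hR hRC ha hp)
  have h4 : Pr (Sc R A) O = {x : BE01F.E (d + m) |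
        (WithLp.toLp 2 fun i : Fin d => R⁻¹ * x (Fin.castAdd m i)) ∈ A ∧
        (WithLp.toLp 2 fun j : Fin m => x (Fin.natAdd d j)) ∈ O} := by
    ext x
    show (R⁻¹ • fs (d := d) (m := m) x ∈ A ∧ sn (d := d) (m := m) x ∈ O) ↔ _
    have e1 : R⁻¹ • fs (d := d) (m := m) x =
        WithLp.toLp 2 fun i : Fin d => R⁻¹ * x (Fin.castAdd m i) := by
      ext i
      simp [fs]
    rw [e1]
    rfl
  rw [← h4]
  exact h3

end

end Pool.Agent.Helper22FS.Prod
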